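import Mathlib

set_option autoImplicit false

namespace Pool.Agent.Results.MP_81ec8a_co.Blob

/-- the digraph with arc set `A` contains a directed path on `m` vertices -/
def HasPath {n : ℕ} (A : Finset (Fin n × Fin n)) (m : ℕ) : Prop :=
  ∃ v : Fin m → Fin n, Function.Injective v ∧ ∀ i j : Fin m, i.1 + 1 = j.1 → (v i, v j) ∈ A

def g (x : ℕ) : ℕ := if x < 12 then x else 12 + (x - 12) / 6

def arc (x y : ℕ) : Bool := x != y && (g x < g y || (x < 12 && y < 12))

def A (n : ℕ) : Finset (Fin n × Fin n) := Finset.univ.filter fun p => arc p.1 p.2 = true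

theorem cardA : (A 60).card = 1716 := by decide +kernel

theorem memA {n : ℕ} (x y : Fin n) (h : (x, y) ∈ A n) : g x < g y ∨ (x.1 < 12 ∧ y.1 < 12) := by
  have := (Finset.mem_filter.mp h).2
  simp only [arc, Bool.and_eq_true, Bool.or_eq_true, decide_eq_true_eq] at this
  exact this.2

theorem free (n : ℕ) (hn : n ≤ 60) : ¬ HasPath (A n) 21 := by
  rintro ⟨v, hv, h⟩
  have key : ∀ d, ∀ i j : Fin 21, i.1 + d + 1 = j.1 →
      g (v i) < g (v j) ∨ ((v i).1 < 12 ∧ (v j).1 < 12) := by
    intro d
    induction d with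
    | zero =>
      exact fun i j e => memA _ _ (h i j e)
    | succ d ih =>
      intro i j e
      have h1 := ih i ⟨i.1 + d + 1, by omega⟩ rfl
      have h3 := memA _ _ (h ⟨i.1 + d + 1, by omega⟩ j e)
      generalize (v ⟨i.1 + d + 1, by omega⟩).1 = y at h1 h3
      unfold g at *
      split_ifs at * <;> omega
  have lt : ∀ i j : Fin 21, i < j → g (v i) ≠ g (v j) := fun i j hij e => by
    rcases key (j.1 - i.1 - 1) i j (by have : i.1 < j.1 := hij; omega) with k | k
    · omega
    · simp only [g, k.1, k.2, if_true] at e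
      exact hij.ne (hv (Fin.ext e))
  have inj : Function.Injective fun i : Fin 21 => (⟨g (v i), by
      have := (v i).2; unfold g; split_ifs <;> omega⟩ : Fin 20) := fun i j e => by
    have e' : g (v i) = g (v j) := congrArg Fin.val e
    rcases lt_trichotomy i j with k | k | k
    exacts [absurd e' (lt i j k), k, absurd e'.symm (lt j i k)]
  simpa using Fintype.card_le_of_injective _ inj

theorem irr (n : ℕ) (x : Fin n) : (x, x) ∉ A n := by simp [A, arc]

theorem result : ∃ k n : ℕ, 1 ≤ k ∧ 3 * k ≤ n ∧ ∃ A : Finset (Fin n × Fin n), (∀ x, (x, x) ∉ A) ∧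
    ¬ HasPath A (k + 1) ∧ (SimpleGraph.turanGraph n k).edgeFinset.card < A.card := by
  refine ⟨20, 60, by norm_num, by norm_num, A 60, irr 60, free 60 le_rfl, ?_⟩
  rw [cardA, SimpleGraph.card_edgeFinset_turanGraph]
  norm_num

end Pool.Agent.Results.MP_81ec8a_co.Blob
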